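import Pool.Agent.Lib.MP_db984e_an.Main
import Pool.Agent.Lib.MP_db984e_an.Prim
import Pool.Agent.Lib.MP_db984e_an.Exist

/-!
# A substitution with a Lebesgue spectral component and non-integer Perron-Frobenius eigenvalue

The substitution has `32` letters: the letter `8 * t + p` has type `t` in `{0, 1, 2, 3}` and
phase `p` modulo `8`. Writing `a, b, c, d` for the types and `z` for the rotation of the phase by
one, the substitution is `a -> a (z^3 c) (z^5 d) (z^6 b)`, `b -> a (z^5 c) (z^3 d) (z^2 b)`,
`c -> a c d`, `d -> c (z^4 d) b`, and it commutes with the rotations of the phase. Its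
Perron-Frobenius eigenvalue is `2 + √2`. The function whose value at `x` is the phase (a power of
`e^{πi/4}`) of `x 0` if `x 0` has type `c`, and `0` otherwise, has spectral measure a constant
multiple of Lebesgue measure.
-/

open MeasureTheory
open Pool.Agent.Lib.MP_db984e_an

namespace Pool.Agent.Results.MP_db984e_an.NonIntegerLebesgue

/-- There is a primitive aperiodic substitution `σ` whose Perron-Frobenius eigenvalue is not an
integer and whose dynamical system `(X_σ, T, μ)` has a Lebesgue spectral component. -/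
theorem result : ∃ (m : ℕ) (σ : Fin m → List (Fin m)),
    (∀ a, σ a ≠ []) ∧ IsPrimitive σ ∧ (subshift σ).Infinite ∧
      (∃ θ : ℝ, (∀ θ' : ℝ, IsPerronFrobenius σ θ' ↔ θ' = θ) ∧ ∀ n : ℤ, θ ≠ n) ∧
      (∃ μ : Measure (ℤ → Fin m), IsInvariantOn σ μ) ∧
      ∀ μ : Measure (ℤ → Fin m), IsInvariantOn σ μ → HasLebesgueComponent μ := by
  obtain ⟨μ, hμ⟩ := exists_invariant
  refine ⟨32, sg, ?_, primitive_sg, infinite_subshift hμ, ⟨2 + √2, isPF_iff, ne_int⟩, ⟨μ, hμ⟩,
    fun ν hν => lebesgue hν⟩
  intro a ha
  have h := three_le_length_sg a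
  rw [ha] at h
  simp at h

end Pool.Agent.Results.MP_db984e_an.NonIntegerLebesgue
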